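import Pool.Agent.helper182_gap.Main

/-!
The random 2-complex with complete 1-skeleton: with high probability every proper normal subgroup
of the fundamental group contains only few of the 3-cycles through any given vertex.
-/

set_option autoImplicit false

open Classical

namespace Pool.Agent.Results.MP_d0323d_co.Gap

/-- The possible 2-faces: all three-element subsets of the vertex set. -/
def triples (n : ℕ) : Finset (Finset (Fin n)) :=
  (Finset.univ : Finset (Finset (Fin n))).filter (fun s : Finset (Fin n) => s.card = 3)

/-- The probability that the set of 2-faces of the random 2-complex has the property `Q`. Each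
possible 2-face is included independently with probability `p`. -/
noncomputable def prob (n : ℕ) (p : ℝ) (Q : Finset (Finset (Fin n)) → Prop) : ℝ :=
  ∑ F ∈ (triples n).powerset,
    if Q F then p ^ F.card * (1 - p) ^ ((triples n).card - F.card) else 0

/-- The relators of the fundamental group of the complex with complete 1-skeleton and set of
2-faces `F`, based at the vertex `0`; the generator `(i, j)` is the edge from `i` to `j`. -/
def relators (n : ℕ) (F : Finset (Finset (Fin n))) : Set (FreeGroup (Fin n × Fin n)) :=
  {r : FreeGroup (Fin n × Fin n) |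
    (∃ i : Fin n, r = FreeGroup.of (i, i)) ∨
    (∃ i j : Fin n, r = FreeGroup.of (i, j) * FreeGroup.of (j, i)) ∨
    (∃ i j : Fin n, i.val = 0 ∧ r = FreeGroup.of (i, j)) ∨
    (∃ i j k : Fin n, ({i, j, k} : Finset (Fin n)) ∈ F ∧
      r = FreeGroup.of (i, j) * FreeGroup.of (j, k) * (FreeGroup.of (i, k))⁻¹)}

/-- The fundamental group. -/
abbrev pi1 (n : ℕ) (F : Finset (Finset (Fin n))) : Type := PresentedGroup (relators n F)

/-- The class of the edge from `i` to `j`. -/
def edge (n : ℕ) (F : Finset (Finset (Fin n))) (i j : Fin n) : pi1 n F :=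
  PresentedGroup.of (i, j)

/-- The 3-cycles through the vertex `v` whose class is in `N`, for all ways to run through
the cycle. -/
noncomputable def cyclesIn (n : ℕ) (F : Finset (Finset (Fin n))) (N : Subgroup (pi1 n F))
    (v : Fin n) : Finset (Finset (Fin n)) :=
  (triples n).filter (fun T => v ∈ T ∧
    ∀ i j k : Fin n, T = {i, j, k} → edge n F i j * edge n F j k * edge n F k i ∈ N)

open Pool.Agent.helper182_gap in
theorem result :
    ∃ C : ℝ, 0 < C ∧ ∀ n : ℕ, 1 ≤ n → ∀ p : ℝ, 0 < p → p ≤ 1 →
      prob n p (fun F => ∃ N : Subgroup (pi1 n F), N.Normal ∧ N ≠ ⊤ ∧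
        ∃ v : Fin n, C * n * Real.log n / p < (cyclesIn n F N v).card) ≤ C / n := by
  refine ⟨240000, by norm_num, ?_⟩
  intro n hn p h0 h1
  have hPr : ∀ Q : Finset (Finset (Fin n)) → Prop, prob n p Q = Pr p Q := fun Q => rfl
  rw [hPr]
  have hnpos : (0 : ℝ) < n := by exact_mod_cast hn
  -- the number of cycles against the number of ordered pairs
  have key : ∀ (F : Finset (Finset (Fin n))) (N : Subgroup (pi1 n F)) [N.Normal] (v : Fin n),
      2 * (cyclesIn n F N v).card
        ≤ (Ex (fun i j => QuotientGroup.mk' N (edge n F i j)) v).card := by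
    intro F N _ v
    have hs : ((cyclesIn n F N v).sigma (fun T => (T.erase v).offDiag)).card
        ≤ (Ex (fun i j => QuotientGroup.mk' N (edge n F i j)) v).card := by
      apply Finset.card_le_card_of_injOn (fun s : (Σ _ : Finset (Fin n), Fin n × Fin n) => s.2)
      · rintro ⟨T, ⟨y, z⟩⟩ h
        rw [Finset.mem_coe, Finset.mem_sigma] at h
        obtain ⟨hT, hyz⟩ := h
        rw [cyclesIn, Finset.mem_filter] at hT
        obtain ⟨hT3, hv, hc⟩ := hT
        rw [Finset.mem_offDiag, Finset.mem_erase, Finset.mem_erase] at hyz
        obtain ⟨⟨hy1, hy2⟩, ⟨hz1, hz2⟩, hne⟩ := hyz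
        dsimp at hy1 hy2 hz1 hz2 hne
        have hTe : T = {v, y, z} := by
          symm
          apply Finset.eq_of_subset_of_card_le
          · intro a ha
            simp only [Finset.mem_insert, Finset.mem_singleton] at ha
            rcases ha with rfl | rfl | rfl <;> assumption
          · rw [triples, Finset.mem_filter] at hT3
            rw [hT3.2, Finset.card_eq_three.mpr ⟨v, y, z, Ne.symm hy1, Ne.symm hz1, hne, rfl⟩]
        rw [Finset.mem_coe, mem_Ex]
        refine ⟨hne, hy1, hz1, ?_⟩
        dsimp only
        rw [← map_mul, ← map_mul, QuotientGroup.mk'_apply, QuotientGroup.eq_one_iff]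
        exact hc v y z hTe
      · rintro ⟨T, ⟨y, z⟩⟩ h ⟨T', ⟨y', z'⟩⟩ h' he
        dsimp at he
        rw [Finset.mem_coe, Finset.mem_sigma] at h h'
        have aux : ∀ T y z, T ∈ cyclesIn n F N v → (y, z) ∈ (T.erase v).offDiag →
            T = {v, y, z} := by
          intro T y z hT hyz
          rw [cyclesIn, Finset.mem_filter] at hT
          obtain ⟨hT3, hv, hc⟩ := hT
          rw [Finset.mem_offDiag, Finset.mem_erase, Finset.mem_erase] at hyz
          obtain ⟨⟨hy1, hy2⟩, ⟨hz1, hz2⟩, hne⟩ := hyz
          dsimp at hy1 hy2 hz1 hz2 hne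
          symm
          apply Finset.eq_of_subset_of_card_le
          · intro a ha
            simp only [Finset.mem_insert, Finset.mem_singleton] at ha
            rcases ha with rfl | rfl | rfl <;> assumption
          · rw [triples, Finset.mem_filter] at hT3
            rw [hT3.2, Finset.card_eq_three.mpr ⟨v, y, z, Ne.symm hy1, Ne.symm hz1, hne, rfl⟩]
        have e1 := aux T y z h.1 h.2
        have e2 := aux T' y' z' h'.1 h'.2
        rw [Prod.mk.injEq] at he
        obtain ⟨rfl, rfl⟩ := he
        rw [← e2] at e1
        subst e1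
        rfl
    rw [Finset.card_sigma] at hs
    refine le_trans (le_of_eq ?_) hs
    rw [Finset.sum_congr rfl (g := fun _ => 2), Finset.sum_const, smul_eq_mul, mul_comm]
    intro T hT
    rw [cyclesIn, Finset.mem_filter] at hT
    obtain ⟨hT3, hv, -⟩ := hT
    rw [triples, Finset.mem_filter] at hT3
    rw [Finset.offDiag_card, Finset.card_erase_of_mem hv, hT3.2]
  by_cases hsmall : n < 8
  · refine (Pr_le_one h0.le h1 _).trans ?_
    rw [le_div_iff₀ hnpos]
    have : (n : ℝ) ≤ 8 := by exact_mod_cast hsmall.le
    linarith
  push Not at hsmall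
  obtain ⟨hl2, hln⟩ := log_facts n hsmall
  by_cases hp : 240000 * Real.log n ≤ p * n
  · have hb := prob_bad (V := Fin n) n (Fintype.card_fin n) hsmall h0 h1 hp
    have h4 : (4 : ℝ) / n ≤ 240000 / n := by
      apply div_le_div_of_nonneg_right (by norm_num) hnpos.le
    refine (Pr_mono h0.le h1 ?_).trans (hb.trans h4)
    rintro F - ⟨N, hN, hNt, v, hv⟩
    by_contra hbad
    apply hNt
    set A : Fin n → Fin n → pi1 n F ⧸ N := fun i j => QuotientGroup.mk' N (edge n F i j) with hA
    have hrel : ∀ r ∈ relators n F, PresentedGroup.mk (relators n F) r = 1 := by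
      intro r hr
      exact PresentedGroup.one_of_mem hr
    have hAc : IsConn A := by
      constructor
      · intro u
        have : edge n F u u = 1 := hrel _ (Or.inl ⟨u, rfl⟩)
        simp only [hA, this, map_one]
      · intro u w
        have : edge n F u w * edge n F w u = 1 := by
          have := hrel _ (Or.inr (Or.inl ⟨u, w, rfl⟩))
          rwa [map_mul] at this
        simp only [hA]
        rw [← map_mul, this, map_one]
    have hAF : FlatOn A F := by
      intro a b c habc
      have h5 : edge n F a b * edge n F b c * (edge n F a c)⁻¹ = 1 := by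
        have := hrel _ (Or.inr (Or.inr (Or.inr ⟨a, b, c, habc, rfl⟩)))
        rwa [map_mul, map_mul, map_inv] at this
      have h6 : A c a = (A a c)⁻¹ := hAc.symm a c
      rw [h6]
      simp only [hA]
      rw [← map_mul, ← map_inv, ← map_mul, h5, map_one]
    have hall := gap_conn (V := Fin n) n (Fintype.card_fin n) hsmall h0 h1 F hp hbad A hAc hAF v (by
      have h7 := key F N v
      have h8 : 2 * ((cyclesIn n F N v).card : ℝ) ≤ (Ex A v).card := by exact_mod_cast h7
      have h9 : 20000 * (n : ℝ) * Real.log n / p ≤ 240000 * n * Real.log n / p := by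
        apply div_le_div_of_nonneg_right _ h0.le
        have : 0 ≤ (n : ℝ) * Real.log n := by positivity
        nlinarith
      have h10 : (0 : ℝ) ≤ (cyclesIn n F N v).card := Nat.cast_nonneg _
      linarith)
    -- all classes are in `N`
    rw [Subgroup.eq_top_iff']
    have hgen : ∀ q : Fin n × Fin n, (PresentedGroup.of q : pi1 n F) ∈ N := by
      rintro ⟨i, j⟩
      have hz : ∀ j, A ⟨0, hn⟩ j = 1 := by
        intro j
        have : edge n F ⟨0, hn⟩ j = 1 := hrel _ (Or.inr (Or.inr (Or.inl ⟨⟨0, hn⟩, j, rfl, rfl⟩)))
        simp only [hA, this, map_one]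
      have h7 := hall ⟨0, hn⟩ i j
      rw [hz, one_mul, hAc.symm ⟨0, hn⟩ j, hz, inv_one, mul_one] at h7
      rw [← QuotientGroup.eq_one_iff]
      exact h7
    intro x
    induction x using PresentedGroup.induction_on with
    | _ z =>
      induction z using FreeGroup.induction_on with
      | C1 => rw [map_one]; exact N.one_mem
      | of q => exact hgen q
      | inv_of q _ => rw [map_inv]; exact N.inv_mem (hgen q)
      | mul a b ha hb => rw [map_mul]; exact N.mul_mem ha hb
  · push Not at hp
    have hz : Pr p (fun F : Finset (Finset (Fin n)) => ∃ N : Subgroup (pi1 n F), N.Normal ∧ N ≠ ⊤ ∧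
        ∃ v : Fin n, 240000 * n * Real.log n / p < (cyclesIn n F N v).card) ≤ 0 := by
      have : Pr p (fun F : Finset (Finset (Fin n)) => ∃ N : Subgroup (pi1 n F), N.Normal ∧ N ≠ ⊤ ∧
          ∃ v : Fin n, 240000 * n * Real.log n / p < (cyclesIn n F N v).card)
          ≤ Pr p (fun _ : Finset (Finset (Fin n)) => False) := by
        apply Pr_mono h0.le h1
        rintro F - ⟨N, hN, -, v, hv⟩
        have h7 := key F N v
        have h8 : (Ex (fun i j => QuotientGroup.mk' N (edge n F i j)) v).card ≤ n * n := by
          calc _ ≤ (Finset.univ : Finset (Fin n × Fin n)).card := Finset.card_le_univ _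
            _ = n * n := by simp
        have h9 : ((cyclesIn n F N v).card : ℝ) ≤ n * n := by
          have : (cyclesIn n F N v).card ≤ n * n := by omega
          exact_mod_cast this
        rw [div_lt_iff₀ h0] at hv
        have h10 : ((cyclesIn n F N v).card : ℝ) * p ≤ n * n * p :=
          mul_le_mul_of_nonneg_right h9 h0.le
        have h11 : n * (p * n) < n * (240000 * Real.log n) := mul_lt_mul_of_pos_left hp hnpos
        nlinarith
      refine this.trans ?_
      unfold Pr
      simp
    refine hz.trans ?_
    positivity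

end Pool.Agent.Results.MP_d0323d_co.Gap
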